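import Pool.Agent.H21.HD.BridgeA

/-!
# XF: apolarity, the equality

`dim V_d + dim (powers in degree d) = binom(d + r, r)`: the annihilator of the powers is the space of the forms
vanishing at the fat points.
-/

set_option autoImplicit false

namespace Pool.Agent.XF

open MvPolynomial Pool.Agent.H18.Fat Pool.Agent.H21.HD Pool.Agent.H21.HD.BridgeAX
open scoped Classical

/-- The converse of `pair_mul_lin_pow_eq_zero`. -/
theorem vanishes_of_pair {n d m : ℕ} (q : Fin n → ℂ) (f : mons n d → ℂ) (hm : m ≤ d)
    (h : ∀ g : MvPolynomial (Fin n) ℂ, g.IsHomogeneous (d - (d + 1 - m)) → d + 1 - m ≤ d →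
      pair f (g * lin q ^ (d + 1 - m)) = 0) : VanishesToOrder (toPoly n d f) q m := by
  intro β hβ
  obtain ⟨e, he⟩ : ∃ e, e = d + 1 - m := ⟨_, rfl⟩
  rw [← he] at h
  have h1 : pair f (monomial β 1 * lin q ^ (d - β.degree)) = 0 := by
    have h2 : (monomial β 1 * lin q ^ (d - β.degree) : MvPolynomial (Fin n) ℂ) =
        (monomial β 1 * lin q ^ (d - β.degree - e)) * lin q ^ e := by
      rw [mul_assoc, ← pow_add]
      congr 2
      omega
    rw [h2]
    refine h _ ?_ (by omega)
    have h3 := (isHomogeneous_monomial (σ := Fin n) (1 : ℂ) (rfl : β.degree = β.degree)).mul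
      ((lin_isHomogeneous q).pow (d - β.degree - e))
    have h4 : β.degree + 1 * (d - β.degree - e) = d - e := by omega
    rwa [h4] at h3
  rw [pair_monomial_mul_lin_pow q f (d - β.degree) β (by omega)] at h1
  rcases mul_eq_zero.1 h1 with h2 | h2
  · rcases mul_eq_zero.1 h2 with h3 | h3
    · exact absurd h3 (Nat.cast_ne_zero.2 (Nat.factorial_ne_zero _))
    · exact absurd h3 (fact_ne_zero _)
  · exact h2

theorem le_fat_add_powSpan {r : ℕ} {ι : Type} [Fintype ι] (d : ℕ)
    (p : ι → Fin (r + 1) → ℂ) (m : ι → ℕ) (hm : ∀ i, m i ≤ d) :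
    (d + r).choose r ≤ Module.finrank ℂ (fatForms r d p m) +
      Module.finrank ℂ (powSpan d p (fun i => d + 1 - m i)) := by
  have h1 : fatForms r d p m ≤ homogeneousSubmodule (Fin (r + 1)) ℂ d := fun F hF => hF.1
  rw [← finrank_comap h1, ← finrank_comap (powSpan_le d p (fun i => d + 1 - m i))]
  set W₁ := (fatForms r d p m).comap (toPoly (r + 1) d) with hW₁
  set W₂ := (powSpan d p (fun i => d + 1 - m i)).comap (toPoly (r + 1) d) with hW₂
  -- the pairing as a map to the dual
  let u : (mons (r + 1) d → ℂ) →ₗ[ℂ] Module.Dual ℂ (mons (r + 1) d → ℂ) :=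
    { toFun := fun f => (pair f).comp (toPoly (r + 1) d)
      map_add' := fun f g => by
        ext x
        simp only [LinearMap.comp_apply, LinearMap.add_apply, pair_apply, Pi.add_apply]
        rw [← Finset.sum_add_distrib]
        exact Finset.sum_congr rfl fun α _ => by ring
      map_smul' := fun c f => by
        ext x
        simp only [LinearMap.comp_apply, LinearMap.smul_apply, pair_apply, Pi.smul_apply,
          RingHom.id_apply, smul_eq_mul]
        rw [Finset.mul_sum]
        exact Finset.sum_congr rfl fun α _ => by ring }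
  have hu : ∀ f x, u f x = pair f (toPoly (r + 1) d x) := fun _ _ => rfl
  have huinj : Function.Injective u := by
    rw [← LinearMap.ker_eq_bot, LinearMap.ker_eq_bot']
    intro f hf
    funext β
    have h2 : u f (Pi.single β 1) = 0 := by rw [hf]; rfl
    rw [hu, pair_apply, Finset.sum_eq_single β] at h2
    · rw [coeff_toPoly, Pi.single_eq_same, mul_one] at h2
      exact (mul_eq_zero.1 h2).resolve_left (fact_ne_zero _)
    · intro α _ hα
      rw [coeff_toPoly, Pi.single_eq_of_ne hα, mul_zero]
    · intro h
      exact absurd (Finset.mem_univ _) h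
  have husurj : Function.Surjective u := by
    have h2 : Module.finrank ℂ (mons (r + 1) d → ℂ) =
        Module.finrank ℂ (Module.Dual ℂ (mons (r + 1) d → ℂ)) :=
      (Subspace.dual_finrank_eq).symm
    exact (LinearMap.injective_iff_surjective_of_finrank_eq_finrank h2).1 huinj
  have hmap : W₂.dualAnnihilator ≤ W₁.map u := by
    intro φ hφ
    obtain ⟨f, rfl⟩ := husurj φ
    rw [Submodule.mem_dualAnnihilator] at hφ
    refine ⟨f, ?_, rfl⟩
    show toPoly (r + 1) d f ∈ fatForms r d p m
    refine ⟨?_, fun i => ?_⟩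
    · exact toPoly_isHomogeneous f
    · refine vanishes_of_pair (p i) f (hm i) fun g hg he => ?_
      have h2 : g * lin (p i) ^ (d + 1 - m i) ∈ powSpan d p (fun i => d + 1 - m i) :=
        Submodule.subset_span ⟨i, g, he, hg, rfl⟩
      have h3 := powSpan_le d p (fun i => d + 1 - m i) h2
      rw [← range_toPoly] at h3
      obtain ⟨x, hx⟩ := h3
      have h4 : x ∈ W₂ := by
        show toPoly (r + 1) d x ∈ powSpan d p (fun i => d + 1 - m i)
        rw [hx]
        exact h2
      have h5 := hφ x h4
      rw [hu, hx] at h5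
      exact h5
  have h5 : Module.finrank ℂ W₂.dualAnnihilator ≤ Module.finrank ℂ W₁ := by
    rw [(Submodule.equivMapOfInjective u huinj W₁).finrank_eq]
    exact Submodule.finrank_mono hmap
  have h6 := Subspace.finrank_add_finrank_dualAnnihilator_eq W₂
  rw [Module.finrank_fintype_fun_eq_card, Fintype.card_coe, card_mons] at h6
  omega

end Pool.Agent.XF
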