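import Pool.Agent.H21.Final2

/-!
# XF: the coefficients of `(1 - z^d)^u / (1 - z)^n` with error terms
-/

set_option autoImplicit false

namespace Pool.Agent.XF

open Pool.Agent.H21 Finset

theorem choose_asy (m : ℕ) : ∃ K : ℝ, 0 ≤ K ∧ ∀ n : ℕ, 1 ≤ n →
    |(((n - 1 + m).choose (n - 1) : ℕ) : ℝ) - (n : ℝ) ^ m / (m.factorial : ℝ)| * n ≤
      K * (n : ℝ) ^ m := by
  induction m with
  | zero => exact ⟨0, le_rfl, fun n hn => by simp⟩
  | succ m ih =>
    obtain ⟨K, hK, h⟩ := ih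
    refine ⟨K * (1 + m) + m, by positivity, fun n hn => ?_⟩
    have hn1 : (1 : ℝ) ≤ n := by exact_mod_cast hn
    have hm0 : (0 : ℝ) ≤ m := Nat.cast_nonneg m
    have h1 : (((n - 1 + (m + 1)).choose (n - 1) : ℕ) : ℝ) =
        (((n - 1 + m).choose (n - 1) : ℕ) : ℝ) * (n + m) / (m + 1) := by
      have h2 := Nat.choose_mul_succ_eq (n - 1 + m) (n - 1)
      have h3 : n - 1 + m + 1 - (n - 1) = m + 1 := by omega
      have h4 : n - 1 + m + 1 = n + m := by omega
      rw [h3, h4] at h2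
      have h5 : n - 1 + (m + 1) = n + m := by omega
      rw [h5, eq_div_iff (by positivity)]
      exact_mod_cast h2.symm
    have h6 : (n : ℝ) ^ (m + 1) / ((m + 1).factorial : ℝ) =
        (n : ℝ) ^ m / (m.factorial : ℝ) * n / (m + 1) := by
      rw [Nat.factorial_succ, pow_succ]
      have h7 : (m.factorial : ℝ) ≠ 0 := by exact_mod_cast m.factorial_ne_zero
      push_cast
      field_simp
    set a : ℝ := (((n - 1 + m).choose (n - 1) : ℕ) : ℝ)
    set b : ℝ := (n : ℝ) ^ m / (m.factorial : ℝ) with hb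
    have hb1 : b ≤ (n : ℝ) ^ m := by
      rw [hb]
      refine div_le_self (by positivity) ?_
      exact_mod_cast m.factorial_pos
    have hb0 : 0 ≤ b := by positivity
    have h8 : a * (n + m) / (m + 1) - b * n / (m + 1) = ((a - b) * (n + m) + b * m) / (m + 1) := by
      ring
    have h9 : |((a - b) * (n + m) + b * m) / (m + 1)| ≤ |a - b| * (n + m) + b * m := by
      rw [abs_div, abs_of_pos (by positivity : (0 : ℝ) < (m : ℝ) + 1)]
      refine (div_le_self (abs_nonneg _) (by linarith)).trans ?_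
      refine (abs_add_le _ _).trans ?_
      rw [abs_mul, abs_of_nonneg (by positivity : (0 : ℝ) ≤ (n : ℝ) + m),
        abs_of_nonneg (by positivity : (0 : ℝ) ≤ b * m)]
    have h10 := h n hn
    rw [h1, h6, h8]
    calc |((a - b) * (n + m) + b * m) / (m + 1)| * n ≤ (|a - b| * (n + m) + b * m) * n :=
          mul_le_mul_of_nonneg_right h9 (by positivity)
      _ = (|a - b| * n) * (n + m) + b * (m * n) := by ring
      _ ≤ (K * (n : ℝ) ^ m) * ((1 + m) * n) + (n : ℝ) ^ m * (m * n) := by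
          refine add_le_add (mul_le_mul h10 ?_ (by positivity) (by positivity))
            (mul_le_mul_of_nonneg_right hb1 (by positivity))
          nlinarith
      _ = (K * (1 + m) + m) * (n : ℝ) ^ (m + 1) := by ring

theorem choose_asy2 (k : ℕ) (B : ℝ) (hB : 0 ≤ B) : ∃ K : ℝ, 0 ≤ K ∧ ∀ (n : ℝ) (X : ℝ), 1 ≤ n →
    n ≤ X → ∀ u : ℕ, (u : ℝ) ≤ B * X →
    |((u.choose k : ℕ) : ℝ) - (u : ℝ) ^ k / (k.factorial : ℝ)| * n ≤ K * X ^ k := by
  induction k with
  | zero => exact ⟨0, le_rfl, fun n X hn hX u hu => by simp⟩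
  | succ k ih =>
    obtain ⟨K, hK, h⟩ := ih
    refine ⟨K * (B + k) + k * B ^ k, by positivity, fun n X hn hX u hu => ?_⟩
    have hu0 : (0 : ℝ) ≤ u := Nat.cast_nonneg u
    have hk0 : (0 : ℝ) ≤ k := Nat.cast_nonneg k
    have h1 : ((u.choose (k + 1) : ℕ) : ℝ) = ((u.choose k : ℕ) : ℝ) * (u - k) / (k + 1) := by
      rw [eq_div_iff (by positivity)]
      have h2 := Nat.choose_succ_right_eq u k
      rcases le_or_gt k u with h3 | h3
      · have h4 : ((u.choose (k + 1) * (k + 1) : ℕ) : ℝ) = ((u.choose k * (u - k) : ℕ) : ℝ) := by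
          rw [h2]
        push_cast [Nat.cast_sub h3] at h4
        exact h4
      · rw [Nat.choose_eq_zero_of_lt h3, Nat.choose_eq_zero_of_lt (by omega : u < k + 1)]
        simp
    have h6 : (u : ℝ) ^ (k + 1) / ((k + 1).factorial : ℝ) =
        (u : ℝ) ^ k / (k.factorial : ℝ) * u / (k + 1) := by
      rw [Nat.factorial_succ, pow_succ]
      have h7 : (k.factorial : ℝ) ≠ 0 := by exact_mod_cast k.factorial_ne_zero
      push_cast
      field_simp
    set a : ℝ := ((u.choose k : ℕ) : ℝ)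
    set b : ℝ := (u : ℝ) ^ k / (k.factorial : ℝ) with hb
    have hb1 : b ≤ (B * X) ^ k := by
      rw [hb]
      refine (div_le_self (by positivity) ?_).trans (pow_le_pow_left₀ hu0 hu k)
      exact_mod_cast k.factorial_pos
    have hb0 : 0 ≤ b := by positivity
    have h8 : a * (u - k) / (k + 1) - b * u / (k + 1) = ((a - b) * (u - k) + -(b * k)) / (k + 1) := by
      ring
    have h9 : |((a - b) * (u - k) + -(b * k)) / (k + 1)| ≤ |a - b| * (u + k) + b * k := by
      rw [abs_div, abs_of_pos (by positivity : (0 : ℝ) < (k : ℝ) + 1)]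
      refine (div_le_self (abs_nonneg _) (by linarith)).trans ?_
      refine (abs_add_le _ _).trans ?_
      rw [abs_mul, abs_neg, abs_of_nonneg (by positivity : (0 : ℝ) ≤ b * k)]
      have h10 : |(u : ℝ) - k| ≤ u + k := by
        rw [abs_le]
        constructor <;> linarith
      have h11 := mul_le_mul_of_nonneg_left h10 (abs_nonneg (a - b))
      linarith
    have h10 := h n X hn hX u hu
    have hX0 : 0 ≤ X := by linarith
    rw [h1, h6, h8]
    calc |((a - b) * (u - k) + -(b * k)) / (k + 1)| * n ≤ (|a - b| * (u + k) + b * k) * n :=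
          mul_le_mul_of_nonneg_right h9 (by linarith)
      _ = (|a - b| * n) * (u + k) + b * (k * n) := by ring
      _ ≤ (K * X ^ k) * ((B + k) * X) + (B * X) ^ k * (k * X) := by
          refine add_le_add (mul_le_mul h10 ?_ (by positivity) (by positivity))
            (mul_le_mul hb1 (mul_le_mul_of_nonneg_left hX hk0) (by positivity) (by positivity))
          nlinarith
      _ = (K * (B + k) + k * B ^ k) * X ^ (k + 1) := by rw [mul_pow]; ring

theorem term_asy (d k m : ℕ) (hd : 1 ≤ d) (B : ℝ) (hB : 0 ≤ B) : ∃ K : ℝ, 0 ≤ K ∧ ∀ n : ℕ,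
    1 ≤ n → ∀ u : ℕ, (u : ℝ) ≤ B * (n : ℝ) ^ d →
    |((u.choose k : ℕ) : ℝ) * (((n - 1 + m).choose (n - 1) : ℕ) : ℝ) -
      (u : ℝ) ^ k / (k.factorial : ℝ) * ((n : ℝ) ^ m / (m.factorial : ℝ))| * n ≤
      K * (n : ℝ) ^ (d * k + m) := by
  obtain ⟨K₁, hK₁, h₁⟩ := choose_asy m
  obtain ⟨K₂, hK₂, h₂⟩ := choose_asy2 k B hB
  refine ⟨K₂ * (1 + K₁) + B ^ k * K₁, by positivity, fun n hn u hu => ?_⟩
  have hn1 : (1 : ℝ) ≤ n := by exact_mod_cast hn
  have hX : (n : ℝ) ≤ (n : ℝ) ^ d := by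
    calc (n : ℝ) = (n : ℝ) ^ 1 := (pow_one _).symm
      _ ≤ _ := pow_le_pow_right₀ hn1 hd
  have h3 := h₁ n hn
  have h4 := h₂ n ((n : ℝ) ^ d) hn1 hX u hu
  set a : ℝ := (((n - 1 + m).choose (n - 1) : ℕ) : ℝ)
  set b : ℝ := (n : ℝ) ^ m / (m.factorial : ℝ) with hb
  set p : ℝ := ((u.choose k : ℕ) : ℝ)
  set q : ℝ := (u : ℝ) ^ k / (k.factorial : ℝ) with hq
  have hb1 : b ≤ (n : ℝ) ^ m := by
    rw [hb]
    refine div_le_self (by positivity) ?_
    exact_mod_cast m.factorial_pos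
  have hb0 : 0 ≤ b := by positivity
  have hq1 : q ≤ (B * (n : ℝ) ^ d) ^ k := by
    rw [hq]
    refine (div_le_self (by positivity) ?_).trans (pow_le_pow_left₀ (Nat.cast_nonneg u) hu k)
    exact_mod_cast k.factorial_pos
  have hq0 : 0 ≤ q := by positivity
  have ha0 : 0 ≤ a := Nat.cast_nonneg _
  have ha1 : a ≤ (1 + K₁) * (n : ℝ) ^ m := by
    have h5 : |a - b| ≤ |a - b| * n := le_mul_of_one_le_right (abs_nonneg _) hn1
    have h6 := le_abs_self (a - b)
    linarith
  have h7 : |p * a - q * b| ≤ |p - q| * a + q * |a - b| := by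
    have h8 : p * a - q * b = (p - q) * a + q * (a - b) := by ring
    rw [h8]
    refine (abs_add_le _ _).trans ?_
    rw [abs_mul, abs_mul, abs_of_nonneg ha0, abs_of_nonneg hq0]
  calc |p * a - q * b| * n ≤ (|p - q| * a + q * |a - b|) * n :=
        mul_le_mul_of_nonneg_right h7 (by positivity)
    _ = (|p - q| * n) * a + q * (|a - b| * n) := by ring
    _ ≤ (K₂ * ((n : ℝ) ^ d) ^ k) * ((1 + K₁) * (n : ℝ) ^ m) +
        (B * (n : ℝ) ^ d) ^ k * (K₁ * (n : ℝ) ^ m) := by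
        refine add_le_add (mul_le_mul h4 ha1 ha0 (by positivity))
          (mul_le_mul hq1 h3 (by positivity) (by positivity))
    _ = (K₂ * (1 + K₁) + B ^ k * K₁) * (n : ℝ) ^ (d * k + m) := by
        rw [mul_pow, pow_add, pow_mul]
        ring

/-- The coefficients `a_i(n, u)` and the limit coefficients. -/
theorem ser_asy (d i : ℕ) (hd : 1 ≤ d) (B : ℝ) (hB : 0 ≤ B) : ∃ K : ℝ, 0 ≤ K ∧ ∀ n : ℕ,
    1 ≤ n → ∀ u : ℕ, (u : ℝ) ≤ B * (n : ℝ) ^ d →
    |(serCoeff n d u i : ℝ) - (n : ℝ) ^ i * expCoeff d i ((u : ℝ) / (n : ℝ) ^ d)| * n ≤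
      K * (n : ℝ) ^ i := by
  choose K hK h using fun k : ℕ => term_asy d k (i - d * k) hd B hB
  refine ⟨∑ k ∈ range (i + 1), K k, sum_nonneg fun k _ => hK k, fun n hn u hu => ?_⟩
  have hn1 : (1 : ℝ) ≤ n := by exact_mod_cast hn
  have hn0 : (n : ℝ) ≠ 0 := by positivity
  rw [fc_eq n d u i hd, hh_eq d i hd, mul_sum]
  push_cast
  rw [← sum_sub_distrib]
  refine (mul_le_mul_of_nonneg_right (abs_sum_le_sum_abs _ _) (by positivity)).trans ?_
  rw [sum_mul, sum_mul]
  refine sum_le_sum fun k _ => ?_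
  by_cases hk : d * k ≤ i
  · rw [if_pos hk, if_pos hk]
    have h1 : n - 1 + i - d * k = n - 1 + (i - d * k) := by omega
    have h2 : (n : ℝ) ^ i * ((-((u : ℝ) / (n : ℝ) ^ d)) ^ k /
        ((k.factorial : ℝ) * ((i - d * k).factorial : ℝ))) =
        (-1) ^ k * ((u : ℝ) ^ k / (k.factorial : ℝ) *
          ((n : ℝ) ^ (i - d * k) / ((i - d * k).factorial : ℝ))) := by
      have h3 : (n : ℝ) ^ i = (n : ℝ) ^ (i - d * k) * ((n : ℝ) ^ d) ^ k := by
        rw [← pow_mul, ← pow_add, Nat.sub_add_cancel hk]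
      have h4 : (-((u : ℝ) / (n : ℝ) ^ d)) ^ k = (-1) ^ k * (u : ℝ) ^ k / ((n : ℝ) ^ d) ^ k := by
        rw [neg_pow, div_pow]
        ring
      rw [h3, h4]
      have h5 : ((n : ℝ) ^ d) ^ k ≠ 0 := by positivity
      field_simp
    rw [h1, h2]
    have h6 := h k n hn u hu
    have h7 : d * k + (i - d * k) = i := by omega
    rw [h7] at h6
    have h8 : (-1 : ℝ) ^ k * ((u.choose k : ℕ) : ℝ) *
        (((n - 1 + (i - d * k)).choose (n - 1) : ℕ) : ℝ) -
        (-1) ^ k * ((u : ℝ) ^ k / (k.factorial : ℝ) *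
          ((n : ℝ) ^ (i - d * k) / ((i - d * k).factorial : ℝ))) =
        (-1 : ℝ) ^ k * (((u.choose k : ℕ) : ℝ) *
        (((n - 1 + (i - d * k)).choose (n - 1) : ℕ) : ℝ) -
        (u : ℝ) ^ k / (k.factorial : ℝ) *
          ((n : ℝ) ^ (i - d * k) / ((i - d * k).factorial : ℝ))) := by ring
    rw [h8, abs_mul, abs_pow, abs_neg, abs_one, one_pow, one_mul]
    exact h6
  · rw [if_neg hk, if_neg hk]
    simp only [mul_zero, sub_zero, abs_zero, zero_mul]
    exact mul_nonneg (hK k) (by positivity)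

end Pool.Agent.XF
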