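import Pool.Agent.H21.Threshold

/-!
# XF: the limit coefficients near the threshold
-/

set_option autoImplicit false

namespace Pool.Agent.XF

open Pool.Agent.H21 Finset

/-- `h_i(x) + c x` decreases where `h_{i-d} ≥ c`. -/
theorem anti_aux (d i : ℕ) (hd : 1 ≤ d) (hi : d ≤ i) (a b c : ℝ)
    (h : ∀ x, a ≤ x → x ≤ b → c ≤ expCoeff d (i - d) x) :
    AntitoneOn (fun x : ℝ => expCoeff d i x + c * x) (Set.Icc a b) := by
  have hder : ∀ x : ℝ, HasDerivAt (fun x : ℝ => expCoeff d i x + c * x)
      (-expCoeff d (i - d) x + c * 1) x := fun x =>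
    (hasDerivAt_expCoeff d i hd hi x).add ((hasDerivAt_id x).const_mul c)
  refine antitoneOn_of_deriv_nonpos (convex_Icc a b) ?_ ?_ ?_
  · exact ((continuous_hh d i).add (continuous_const.mul continuous_id)).continuousOn
  · intro x _
    exact (hder x).differentiableAt.differentiableWithinAt
  · intro x hx
    rw [interior_Icc] at hx
    rw [(hder x).deriv]
    have := h x hx.1.le hx.2.le
    linarith

theorem thr_nonneg (d D : ℕ) (hd : 2 ≤ d) (hD : d ≤ D) : ∀ i ≤ D,
    0 ≤ expCoeff d i (asymThreshold d D) := by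
  intro i hi
  by_contra hcon
  push Not at hcon
  have h1 := (continuous_hh d i).continuousAt.eventually_lt continuousAt_const hcon
  obtain ⟨δ, hδ, h2⟩ := Metric.eventually_nhds_iff.mp h1
  have ht := thr_pos d D hd hD
  have h3 : max 0 (asymThreshold d D - δ / 2) < asymThreshold d D :=
    max_lt ht (by linarith)
  have h4 := h2 (y := max 0 (asymThreshold d D - δ / 2)) (by
    rw [Real.dist_eq, abs_lt]
    constructor
    · have := le_max_right 0 (asymThreshold d D - δ / 2)
      linarith
    · linarith)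
  have h5 := pos_of_lt_thr d D (by omega) _ (le_max_left _ _) h3 i hi
  linarith

theorem thr_exists_zero (d D : ℕ) (hd : 2 ≤ d) (hD : d ≤ D) : ∃ i ≤ D,
    expCoeff d i (asymThreshold d D) = 0 := by
  by_contra hcon
  push Not at hcon
  have hpos : ∀ i ≤ D, 0 < expCoeff d i (asymThreshold d D) := fun i hi =>
    lt_of_le_of_ne (thr_nonneg d D hd hD i hi) (Ne.symm (hcon i hi))
  have h1 : ∀ᶠ x in nhds (asymThreshold d D), ∀ i ∈ range (D + 1), 0 < expCoeff d i x := by
    rw [Filter.eventually_all_finset]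
    intro i hi
    exact continuousAt_const.eventually_lt (continuous_hh d i).continuousAt
      (hpos i (by rw [mem_range] at hi; omega))
  obtain ⟨δ, hδ, h2⟩ := Metric.eventually_nhds_iff.mp h1
  obtain ⟨i, hi, h3⟩ := neg_of_thr_lt d D hd hD (asymThreshold d D + δ / 2) (by linarith)
  have h4 := h2 (y := asymThreshold d D + δ / 2) (by
    rw [Real.dist_eq, abs_lt]
    constructor <;> linarith) i (mem_range.mpr (by omega))
  linarith

/-- At the threshold exactly the top coefficient vanishes. -/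
theorem thr_zero (d D : ℕ) (hd : 2 ≤ d) (hD : d ≤ D) :
    (∀ i < D, 0 < expCoeff d i (asymThreshold d D)) ∧ expCoeff d D (asymThreshold d D) = 0 := by
  classical
  have hex := thr_exists_zero d D hd hD
  have hE := Nat.find_spec hex
  have hmin := fun m (hm : m < Nat.find hex) => Nat.find_min hex hm
  set E := Nat.find hex with hEdef
  have hpos : ∀ i < E, 0 < expCoeff d i (asymThreshold d D) := by
    intro i hi
    have h1 := hmin i hi
    have h2 := thr_nonneg d D hd hD i (by omega)
    exact lt_of_le_of_ne h2 fun h3 => h1 ⟨by omega, h3.symm⟩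
  have hED : E = D := by
    by_contra hne
    have hlt : E < D := lt_of_le_of_ne hE.1 hne
    have hdE : d ≤ E := by
      by_contra h
      push Not at h
      have h1 := expCoeff_small d E h (asymThreshold d D)
      rw [hE.2] at h1
      have h2 : (0 : ℝ) < 1 / (E.factorial : ℝ) := by positivity
      linarith
    have h1 := hh_succ d E (by omega) (asymThreshold d D)
    rw [if_pos (by omega), hE.2] at h1
    have h2 := hpos (E + 1 - d) (by omega)
    have h3 := thr_nonneg d D hd hD (E + 1) hlt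
    have h4 := thr_pos d D hd hD
    have h5 : (0 : ℝ) < d := by exact_mod_cast (by omega : 0 < d)
    have h6 : 0 < asymThreshold d D * (d : ℝ) * expCoeff d (E + 1 - d) (asymThreshold d D) := by
      positivity
    have h7 : 0 ≤ ((E + 1 : ℕ) : ℝ) * expCoeff d (E + 1) (asymThreshold d D) := by positivity
    linarith
  rw [hED] at hpos
  refine ⟨hpos, ?_⟩
  have h := hE.2
  rwa [hED] at h

theorem exists_lower {D : ℕ} (f : ℕ → ℝ) (h : ∀ i < D, 0 < f i) :
    ∃ c : ℝ, 0 < c ∧ ∀ i < D, c ≤ f i := by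
  induction D with
  | zero => exact ⟨1, one_pos, fun i hi => absurd hi (Nat.not_lt_zero i)⟩
  | succ D ih =>
    obtain ⟨c, hc, h1⟩ := ih fun i hi => h i (by omega)
    refine ⟨min c (f D), lt_min hc (h D (by omega)), fun i hi => ?_⟩
    rcases Nat.lt_or_ge i D with h2 | h2
    · exact (min_le_left _ _).trans (h1 i h2)
    · obtain rfl : i = D := by omega
      exact min_le_right _ _

/-- Below the threshold. -/
theorem thr_left (d D : ℕ) (hd : 2 ≤ d) (hD : d ≤ D) : ∃ c : ℝ, 0 < c ∧
    ∀ x, 0 ≤ x → x ≤ asymThreshold d D →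
      (∀ i < D, c ≤ expCoeff d i x) ∧ c * (asymThreshold d D - x) ≤ expCoeff d D x := by
  obtain ⟨h1, h2⟩ := thr_zero d D hd hD
  obtain ⟨c, hc, h3⟩ := exists_lower _ h1
  have hnn : ∀ i ≤ D, ∀ x, 0 ≤ x → x ≤ asymThreshold d D → 0 ≤ expCoeff d i x :=
    nonneg_below d D (by omega) (asymThreshold d D) (thr_nonneg d D hd hD)
  have ht := thr_pos d D hd hD
  have h4 : ∀ i < D, ∀ x, 0 ≤ x → x ≤ asymThreshold d D → c ≤ expCoeff d i x := by
    intro i hi x hx0 hx1
    rcases Nat.lt_or_ge i d with hid | hid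
    · rw [expCoeff_small d i hid, ← expCoeff_small d i hid (asymThreshold d D)]
      exact h3 i hi
    · have h5 := anti_aux d i (by omega) hid 0 (asymThreshold d D) 0
        (fun y hy0 hy1 => hnn (i - d) (by omega) y hy0 hy1)
      have h6 := h5 ⟨hx0, hx1⟩ ⟨ht.le, le_rfl⟩ hx1
      simp only [zero_mul, add_zero] at h6
      exact (h3 i hi).trans h6
  refine ⟨c, hc, fun x hx0 hx1 => ⟨fun i hi => h4 i hi x hx0 hx1, ?_⟩⟩
  have h5 := anti_aux d D (by omega) hD 0 (asymThreshold d D) c
    (fun y hy0 hy1 => h4 (D - d) (by omega) y hy0 hy1)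
  have h6 := h5 ⟨hx0, hx1⟩ ⟨ht.le, le_rfl⟩ hx1
  simp only [h2] at h6
  linarith

/-- Above the threshold. -/
theorem thr_right (d D : ℕ) (hd : 2 ≤ d) (hD : d ≤ D) : ∃ c δ : ℝ, 0 < c ∧ 0 < δ ∧
    ∀ x, asymThreshold d D ≤ x → x ≤ asymThreshold d D + δ →
      expCoeff d D x ≤ -(c * (x - asymThreshold d D)) := by
  obtain ⟨h1, h2⟩ := thr_zero d D hd hD
  have h3 := h1 (D - d) (by omega)
  obtain ⟨c, hc0, hc⟩ := exists_between h3
  have h4 := continuousAt_const.eventually_lt (continuous_hh d (D - d)).continuousAt hc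
  obtain ⟨δ, hδ, h5⟩ := Metric.eventually_nhds_iff.mp h4
  refine ⟨c, δ / 2, hc0, by linarith, fun x hx0 hx1 => ?_⟩
  have h6 := anti_aux d D (by omega) hD (asymThreshold d D) (asymThreshold d D + δ / 2) c
    (fun y hy0 hy1 => by
      have h7 := h5 (y := y) (by
        rw [Real.dist_eq, abs_lt]
        constructor <;> linarith)
      exact h7.le)
  have h7 := h6 ⟨le_rfl, by linarith⟩ ⟨hx0, hx1⟩ hx0
  simp only [h2] at h7
  linarith

end Pool.Agent.XF
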